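import Pool.Agent.R861.ID.Dom

/-!
# Asymptotics
-/

namespace Pool.Agent.R861.ID

open Finset Filter Topology

lemma tendsto_sq_div_choose (l : ℕ) (hl : 3 ≤ l) :
    Tendsto (fun n : ℕ => (n : ℝ) ^ 2 / (n.choose l : ℝ)) atTop (𝓝 0) := by
  have h1 : Tendsto (fun n : ℕ => (8 * (l.factorial : ℝ)) / (n : ℝ)) atTop (𝓝 0) :=
    tendsto_const_div_atTop_nhds_zero_nat _
  refine squeeze_zero' (Eventually.of_forall fun n => by positivity) ?_ h1
  filter_upwards [eventually_ge_atTop (2 * l)] with n hn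
  have hn0 : (0 : ℝ) < n := by
    have : 0 < n := by omega
    exact_mod_cast this
  have h2 := Nat.pow_le_choose (α := ℝ) l n
  have hfac : (0 : ℝ) < (l.factorial : ℝ) := by exact_mod_cast l.factorial_pos
  rw [div_le_iff₀ hfac] at h2
  have h3 : ((n : ℝ) / 2) ≤ ((n + 1 - l : ℕ) : ℝ) := by
    rw [Nat.cast_sub (by omega)]
    push_cast
    have : (2 * l : ℝ) ≤ n := by exact_mod_cast hn
    linarith
  have h4 : (1 : ℝ) ≤ (n : ℝ) / 2 := by
    have : (2 : ℝ) ≤ n := by exact_mod_cast (by omega : 2 ≤ n)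
    linarith
  have h5 : ((n : ℝ) / 2) ^ 3 ≤ (n.choose l : ℝ) * l.factorial := by
    calc ((n : ℝ) / 2) ^ 3 ≤ ((n : ℝ) / 2) ^ l := pow_le_pow_right₀ h4 hl
      _ ≤ ((n + 1 - l : ℕ) : ℝ) ^ l := by gcongr
      _ ≤ _ := h2
  have hch : (0 : ℝ) < (n.choose l : ℝ) := by
    exact_mod_cast Nat.choose_pos (by omega)
  rw [div_le_div_iff₀ hch hn0]
  nlinarith

/-- elementary real inequality -/
lemma quad_ineq (a α κ κ0 : ℝ) (ha : 0 ≤ a) (haα : a ≤ α) (hκ0 : 0 ≤ κ0) (hκ : κ0 ≤ κ)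
    (h : κ0 * (2 * α) ≤ 1) : 1 - α + κ0 * α ^ 2 ≤ 1 - a + κ * a ^ 2 := by
  have h1 : κ0 * a ^ 2 ≤ κ * a ^ 2 := mul_le_mul_of_nonneg_right hκ (sq_nonneg a)
  have h2 : κ0 * (α + a) ≤ 1 := by
    have : κ0 * (α + a) ≤ κ0 * (2 * α) := mul_le_mul_of_nonneg_left (by linarith) hκ0
    linarith
  nlinarith [mul_nonneg (sub_nonneg.2 haα) (sub_nonneg.2 h2)]

/-- Lower bound for a single `n`, given the two parameters. -/
theorem single_bound (l n M τ : ℕ) (hl : 4 ≤ l) (hlM : l ≤ M) (hMn : M ≤ n)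
    (α κ0 : ℝ) (hκ0 : 0 ≤ κ0) (h2α : κ0 * (2 * α) ≤ 1)
    (hα : ((l : ℝ) - 2) / (l - 1) * (M / (M - 1)) +
      (M.choose l : ℝ) * ((n : ℝ) ^ 2 / (n.choose l : ℝ)) ≤ α)
    (hκ : κ0 * (((l : ℝ) - 1) * ((l - 2) + 2 * l * τ / n) + l * (l - 1) / (τ + 1)) ≤
      2 * (1 - 1 / n))
    (D : Finset (Vtx l n)) (hI : IsIndependent (levelGraph l n) D)
    (hD : IsDominating (levelGraph l n) D) (hDn : (#D : ℝ) ≤ (n : ℝ) ^ 2) :
    (1 - α + κ0 * α ^ 2) * (n.choose 2 : ℝ) ≤ #D := by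
  classical
  obtain ⟨hcov, hcount⟩ := dom_to_graph (by omega : 3 ≤ l) D hI hD
  obtain ⟨h, hh1, hh2⟩ := main_ineq (missing D) l τ hl hcov
  have hav := averaged (missing D) l M (by omega) (by omega) hlM n hMn Finset.univ (by simp)
  set k := #((missing D).cliqueFinset l) with hk
  have hkw : kw (missing D) l Finset.univ = k := by
    rw [kw, hk]; congr 1; simp
  set A := ∑ v, (missing D).degree v with hA
  have haw : aw (missing D) Finset.univ = A := by
    rw [aw_eq_sum, hA]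
    refine Finset.sum_congr rfl fun x _ => ?_
    rw [Finset.card_filter, degree_eq_sum]
  rw [hkw, haw] at hav
  simp only [Fintype.card_fin] at hh2
  have hn : 4 ≤ n := by omega
  have hn0 : (0 : ℝ) < n := by exact_mod_cast (by omega : 0 < n)
  have hn4 : (4 : ℝ) ≤ n := by exact_mod_cast hn
  have hn1 : (0 : ℝ) < (n : ℝ) - 1 := by linarith
  have hl4 : (4 : ℝ) ≤ l := by exact_mod_cast hl
  have hkD : (k : ℝ) ≤ #D := by
    have h1 : 2 * k ≤ 2 * #D := by
      have hA' : A ≤ n * (n - 1) := by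
        have := aw_le (missing D) Finset.univ
        rw [haw] at this
        simpa using this
      omega
    exact_mod_cast (by omega : k ≤ #D)
  have hcountR : (n : ℝ) * (n - 1) + 2 * k ≤ A + 2 * #D := by
    have : (((n * (n - 1) + 2 * k : ℕ)) : ℝ) ≤ ((A + 2 * #D : ℕ) : ℝ) := by exact_mod_cast hcount
    push_cast at this
    rw [Nat.cast_sub (by omega)] at this
    simpa using this
  have hch : (0 : ℝ) < (n.choose l : ℝ) := by
    exact_mod_cast Nat.choose_pos (by omega)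
  set a : ℝ := (A : ℝ) / (n * (n - 1)) with ha
  have haα : a ≤ α := by
    refine hav.trans (le_trans ?_ hα)
    gcongr
    linarith
  have ha0 : 0 ≤ a := by positivity
  -- bound on `k`
  have hB : ((A : ℝ)) ^ 2 ≤ (n : ℝ) ^ 2 * k *
      (((l : ℝ) - 1) * ((l - 2) + 2 * l * τ / n) + l * (l - 1) / (τ + 1)) := by
    have h1 : ((A : ℝ)) ^ 2 ≤ (n : ℝ) * ((k : ℝ) * (((l : ℝ) - 1) * (((l : ℝ) - 2) * n + 2 * l * τ)) +
        n * h) := by
      have : ((A ^ 2 : ℕ) : ℝ) ≤ ((n * (k * ((l - 1) * ((l - 2) * n + 2 * l * τ)) + n * h) : ℕ) : ℝ) := by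
        exact_mod_cast hh2
      push_cast at this
      rw [Nat.cast_sub (by omega), Nat.cast_sub (by omega)] at this
      simpa using this
    have h2 : (h : ℝ) ≤ k * (l * (l - 1)) / (τ + 1) := by
      rw [le_div_iff₀ (by positivity)]
      have : ((h * (τ + 1) : ℕ) : ℝ) ≤ ((k * (l * (l - 1)) : ℕ) : ℝ) := by exact_mod_cast hh1
      push_cast at this
      rw [Nat.cast_sub (by omega)] at this
      simpa using this
    calc ((A : ℝ)) ^ 2 ≤ (n : ℝ) * ((k : ℝ) * (((l : ℝ) - 1) * (((l : ℝ) - 2) * n + 2 * l * τ)) +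
        n * h) := h1
      _ ≤ (n : ℝ) * ((k : ℝ) * (((l : ℝ) - 1) * (((l : ℝ) - 2) * n + 2 * l * τ)) +
        n * (k * (l * (l - 1)) / (τ + 1))) := by gcongr
      _ = _ := by
        field_simp
  set B : ℝ := (((l : ℝ) - 1) * ((l - 2) + 2 * l * τ / n) + l * (l - 1) / (τ + 1)) with hBdef
  have hBpos : 0 < B := by
    have h1 : 0 < (l : ℝ) - 1 := by linarith
    have h2 : 0 < (l : ℝ) - 2 := by linarith
    positivity
  -- κ
  have hk2 : κ0 * a ^ 2 * (n * (n - 1)) ≤ 2 * k := by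
    have h1 : κ0 * (A : ℝ) ^ 2 ≤ n ^ 2 * k * (2 * (1 - 1 / n)) := by
      calc κ0 * (A : ℝ) ^ 2 ≤ κ0 * ((n : ℝ) ^ 2 * k * B) := by gcongr
        _ = n ^ 2 * k * (κ0 * B) := by ring
        _ ≤ _ := by gcongr
    have h2 : κ0 * a ^ 2 * (n * (n - 1)) = κ0 * (A : ℝ) ^ 2 / (n * (n - 1)) := by
      rw [ha]; field_simp
    rw [h2, div_le_iff₀ (by positivity)]
    refine h1.trans (le_of_eq ?_)
    field_simp
  have hA' : (A : ℝ) = a * (n * (n - 1)) := by
    rw [ha]; field_simp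
  have hq := quad_ineq a α κ0 κ0 ha0 haα hκ0 le_rfl h2α
  have hch2 : (n.choose 2 : ℝ) = n * (n - 1) / 2 := by
    rw [Nat.cast_choose_two]
  rw [hch2]
  have h6 : (1 - α + κ0 * α ^ 2) * (n * (n - 1)) ≤ (1 - a + κ0 * a ^ 2) * (n * (n - 1)) := by
    gcongr
  nlinarith

/-- the constant `c_l = (l+3)/((l-1)(l+1))` -/
noncomputable def cst (l : ℕ) : ℝ := ((l : ℝ) + 3) / ((l - 1) * (l + 1))

/-- the explicit gap `2(l-3)/((l-1)^3(l+1))` -/
noncomputable def gap (l : ℕ) : ℝ := 2 * ((l : ℝ) - 3) / ((l - 1) ^ 3 * (l + 1))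

lemma cst_add_gap (l : ℕ) (hl : 4 ≤ l) :
    cst l + gap l = 1 - ((l : ℝ) - 2) / (l - 1) + 2 / (((l : ℝ) - 1) * (l - 2)) *
      (((l : ℝ) - 2) / (l - 1)) ^ 2 := by
  have hl4 : (4 : ℝ) ≤ l := by exact_mod_cast hl
  have h1 : (l : ℝ) - 1 ≠ 0 := by linarith
  have h2 : (l : ℝ) - 2 ≠ 0 := by linarith
  have h3 : (l : ℝ) + 1 ≠ 0 := by linarith
  rw [cst, gap]
  field_simp
  ring

theorem eventually_bound (l : ℕ) (hl : 4 ≤ l) (ε : ℝ) (hε : ε < gap l) :
    ∀ᶠ n : ℕ in atTop, (cst l + ε) * (n.choose 2 : ℝ) ≤ (indepDomNumber (levelGraph l n) : ℝ) := by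
  have hl4 : (4 : ℝ) ≤ l := by exact_mod_cast hl
  have hl1 : (0 : ℝ) < (l : ℝ) - 1 := by linarith
  have hl2 : (0 : ℝ) < (l : ℝ) - 2 := by linarith
  set d : ℝ := ((l : ℝ) - 2) / (l - 1) with hd
  set B : ℝ := ((l : ℝ) - 1) * (l - 2) with hB
  have hd0 : 0 < d := by positivity
  have hd1 : d < 1 := by
    rw [hd, div_lt_one hl1]; linarith
  have hB6 : 6 ≤ B := by rw [hB]; nlinarith
  have hBpos : 0 < B := by linarith
  have hgap : cst l + ε < 1 - d + 2 / B * d ^ 2 := by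
    have := cst_add_gap l hl
    rw [← hd, ← hB] at this
    linarith
  -- choose δ
  have hcont : Continuous (fun δ : ℝ => 1 - (d + δ) + (2 / B - δ) * (d + δ) ^ 2) := by fun_prop
  have hev : ∀ᶠ δ in 𝓝[>] (0 : ℝ), cst l + ε < 1 - (d + δ) + (2 / B - δ) * (d + δ) ^ 2 := by
    have h0 : cst l + ε < (fun δ : ℝ => 1 - (d + δ) + (2 / B - δ) * (d + δ) ^ 2) 0 := by
      simpa using hgap
    exact (hcont.continuousAt.eventually_const_lt h0).filter_mono nhdsWithin_le_nhds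
  have hev2 : ∀ᶠ δ in 𝓝[>] (0 : ℝ), δ < min (2 / B) (1 / 4) := by
    have : (0 : ℝ) < min (2 / B) (1 / 4) := by positivity
    exact (eventually_lt_nhds this).filter_mono nhdsWithin_le_nhds
  obtain ⟨δ, hδ1, hδ2, hδ0⟩ := (hev.and (hev2.and self_mem_nhdsWithin)).exists
  have hδ0 : (0 : ℝ) < δ := hδ0
  have hδa : δ < 2 / B := hδ2.trans_le (min_le_left _ _)
  have hδb : δ < 1 / 4 := hδ2.trans_le (min_le_right _ _)
  set α := d + δ with hα
  set κ0 := 2 / B - δ with hκ0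
  have hκ0pos : 0 < κ0 := by linarith
  have h2α : κ0 * (2 * α) ≤ 1 := by
    have h1 : κ0 ≤ 1 / 3 := by
      have : 2 / B ≤ 1 / 3 := by
        rw [div_le_div_iff₀ hBpos (by norm_num)]; linarith
      linarith
    have h2 : α ≤ 5 / 4 := by linarith
    have h3 : 0 < α := by linarith
    nlinarith
  -- choose M
  have hMlim : Tendsto (fun M : ℕ => d * ((M : ℝ) / ((M : ℝ) - 1))) atTop (𝓝 d) := by
    have h1 : Tendsto (fun M : ℕ => (M : ℝ) / ((M : ℝ) - 1)) atTop (𝓝 1) := by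
      have h2 : Tendsto (fun M : ℕ => 1 + 1 / ((M : ℝ) - 1)) atTop (𝓝 (1 + 0)) := by
        refine tendsto_const_nhds.add ?_
        refine Tendsto.div_atTop tendsto_const_nhds ?_
        exact tendsto_atTop_add_const_right _ _ tendsto_natCast_atTop_atTop
      rw [add_zero] at h2
      refine h2.congr' ?_
      filter_upwards [eventually_ge_atTop 2] with M hM
      have : (2 : ℝ) ≤ M := by exact_mod_cast hM
      have h3 : (M : ℝ) - 1 ≠ 0 := by linarith
      field_simp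
      ring
    simpa using h1.const_mul d
  obtain ⟨M, hM1, hM2⟩ := ((hMlim.eventually_lt_const (show d < d + δ by linarith)).and
    (eventually_ge_atTop l)).exists
  -- choose τ
  have hτlim : Tendsto (fun τ : ℕ => (l : ℝ) * (l - 1) / ((τ : ℝ) + 1)) atTop (𝓝 0) := by
    refine Tendsto.div_atTop tendsto_const_nhds ?_
    exact tendsto_atTop_add_const_right _ _ tendsto_natCast_atTop_atTop
  have hκB : κ0 * B < 2 := by
    have : κ0 < 2 / B := by linarith
    rwa [lt_div_iff₀ hBpos] at this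
  have hτlim2 : Tendsto (fun τ : ℕ => κ0 * (B + (l : ℝ) * (l - 1) / ((τ : ℝ) + 1))) atTop
      (𝓝 (κ0 * (B + 0))) := (tendsto_const_nhds.add hτlim).const_mul κ0
  rw [add_zero] at hτlim2
  obtain ⟨τ, hτ⟩ := (hτlim2.eventually_lt_const hκB).exists
  -- now n → ∞
  have hn1 : ∀ᶠ n : ℕ in atTop, d * ((M : ℝ) / ((M : ℝ) - 1)) +
      (M.choose l : ℝ) * ((n : ℝ) ^ 2 / (n.choose l : ℝ)) < α := by
    have h1 : Tendsto (fun n : ℕ => d * ((M : ℝ) / ((M : ℝ) - 1)) +
      (M.choose l : ℝ) * ((n : ℝ) ^ 2 / (n.choose l : ℝ))) atTop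
      (𝓝 (d * ((M : ℝ) / ((M : ℝ) - 1)) + (M.choose l : ℝ) * 0)) :=
      tendsto_const_nhds.add ((tendsto_sq_div_choose l (by omega)).const_mul _)
    rw [mul_zero, add_zero] at h1
    exact h1.eventually_lt_const hM1
  have hn2 : ∀ᶠ n : ℕ in atTop,
      κ0 * (((l : ℝ) - 1) * ((l - 2) + 2 * l * τ / n) + l * (l - 1) / (τ + 1)) <
      2 * (1 - 1 / n) := by
    have h1 : Tendsto (fun n : ℕ => κ0 * (((l : ℝ) - 1) * ((l - 2) + 2 * l * τ / n) +
        l * (l - 1) / (τ + 1)) - 2 * (1 - 1 / n)) atTop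
        (𝓝 (κ0 * (((l : ℝ) - 1) * ((l - 2) + 0) + l * (l - 1) / (τ + 1)) - 2 * (1 - 0))) := by
      refine Tendsto.sub (Tendsto.const_mul _ (Tendsto.add_const _ (Tendsto.const_mul _
        (tendsto_const_nhds.add ?_)))) (Tendsto.const_mul _ (tendsto_const_nhds.sub ?_))
      · exact tendsto_const_div_atTop_nhds_zero_nat _
      · exact tendsto_const_div_atTop_nhds_zero_nat _
    have h2 : κ0 * (((l : ℝ) - 1) * ((l - 2) + 0) + l * (l - 1) / (τ + 1)) - 2 * (1 - 0) < 0 := by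
      rw [add_zero, sub_zero, mul_one, ← hB]
      linarith
    filter_upwards [h1.eventually_lt_const h2] with n hn
    linarith
  filter_upwards [hn1, hn2, eventually_ge_atTop M] with n h1 h2 h3
  have hne : {m | ∃ D : Finset (Vtx l n), IsIndependent (levelGraph l n) D ∧
      IsDominating (levelGraph l n) D ∧ D.card = m}.Nonempty := by
    obtain ⟨D, hD1, hD2, hD3⟩ := pairs_ok (l := l) (n := n) (by omega)
    exact ⟨_, D, hD1, hD2, hD3⟩
  obtain ⟨D, hD1, hD2, hD3⟩ := Nat.sInf_mem hne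
  rw [indepDomNumber, ← hD3]
  have hDle : #D ≤ n.choose 2 := by
    rw [hD3]
    obtain ⟨D', hD1', hD2', hD3'⟩ := pairs_ok (l := l) (n := n) (by omega)
    exact Nat.sInf_le ⟨D', hD1', hD2', hD3'⟩
  have hDn : (#D : ℝ) ≤ (n : ℝ) ^ 2 := by
    have : n.choose 2 ≤ n ^ 2 := Nat.choose_le_pow n 2
    exact_mod_cast hDle.trans this
  have := single_bound l n M τ hl hM2 h3 α κ0 hκ0pos.le h2α h1.le h2.le D hD1 hD2 hDn
  refine le_trans ?_ this
  gcongr

theorem le_choose (l n : ℕ) (hl : 3 ≤ l) : indepDomNumber (levelGraph l n) ≤ n.choose 2 := by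
  obtain ⟨D', hD1', hD2', hD3'⟩ := pairs_ok (l := l) (n := n) hl
  exact Nat.sInf_le ⟨D', hD1', hD2', hD3'⟩

theorem liminf_bound (l : ℕ) (hl : 4 ≤ l) :
    cst l + gap l ≤
      liminf (fun n : ℕ => (indepDomNumber (levelGraph l n) : ℝ) / (n.choose 2 : ℝ)) atTop := by
  have hcob : IsCoboundedUnder (· ≥ ·) atTop
      (fun n : ℕ => (indepDomNumber (levelGraph l n) : ℝ) / (n.choose 2 : ℝ)) := by
    refine IsBoundedUnder.isCoboundedUnder_ge ⟨1, ?_⟩
    rw [Filter.eventually_map]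
    refine Eventually.of_forall fun n => ?_
    refine div_le_one_of_le₀ ?_ (by positivity)
    exact_mod_cast le_choose l n (by omega)
  refine le_of_forall_lt fun c hc => ?_
  have hc' : c - cst l < gap l := by linarith
  obtain ⟨ε, hε1, hε2⟩ := exists_between hc'
  have h1 := eventually_bound l hl ε hε2
  have h2 : cst l + ε ≤
      liminf (fun n : ℕ => (indepDomNumber (levelGraph l n) : ℝ) / (n.choose 2 : ℝ)) atTop := by
    refine le_liminf_of_le hcob ?_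
    filter_upwards [h1, eventually_ge_atTop 2] with n hn hn2
    have : (0 : ℝ) < (n.choose 2 : ℝ) := by exact_mod_cast Nat.choose_pos hn2
    rwa [le_div_iff₀ this]
  linarith

end Pool.Agent.R861.ID
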