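import Mathlib

/-!
# Cliques, light pairs and a degree inequality

If every edge of a graph `H` on `n` vertices lies in an `l`-clique (`l ≥ 4`), and `k` is the number
of `l`-cliques, then `(2e(H))^2 ≤ k n^2 ((l-1)(l-2) + o(1))`.
-/

namespace Pool.Agent.R861.ID

open Finset

set_option linter.unusedSectionVars false

variable {V : Type*} [Fintype V] [DecidableEq V] (H : SimpleGraph V) [DecidableRel H.Adj]

/-- number of `l`-cliques of `H` containing `x` and `y` -/
def tt (l : ℕ) (x y : V) : ℕ := #{Q ∈ H.cliqueFinset l | x ∈ Q ∧ y ∈ Q}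

/-- adjacent pairs in at most `τ` cliques of size `l` -/
def light (l τ : ℕ) (x y : V) : Prop := H.Adj x y ∧ tt H l x y ≤ τ

instance (l τ : ℕ) : DecidableRel (light H l τ) := fun _ _ => inferInstanceAs (Decidable (_ ∧ _))

lemma degree_eq_sum (q : V) : H.degree q = ∑ v, if H.Adj q v then 1 else 0 := by
  rw [← Finset.card_filter, ← SimpleGraph.card_neighborFinset_eq_degree,
    SimpleGraph.neighborFinset_eq_filter]

lemma few_common (l τ : ℕ) (hl : 1 ≤ l) {Q : Finset V} (hQ : H.IsNClique l Q) {q0 x y : V} (hq0 : q0 ∈ Q)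
    (hx : x ∈ Q.erase q0) (hy : y ∈ Q.erase q0) (ht : tt H l x y ≤ τ) :
    #{v | ∀ q ∈ Q.erase q0, H.Adj q v} ≤ τ := by
  refine le_trans ?_ ht
  have hnot : ∀ v, (∀ q ∈ Q.erase q0, H.Adj q v) → v ∉ Q.erase q0 :=
    fun v hv hmem => H.loopless.irrefl v (hv v hmem)
  refine Finset.card_le_card_of_injOn (fun v => insert v (Q.erase q0)) ?_ ?_
  · intro v hv
    have hv' : ∀ q ∈ Q.erase q0, H.Adj q v := by simpa using hv
    have hvn := hnot v hv'
    have hcl : H.IsNClique l (insert v (Q.erase q0)) := by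
      rw [SimpleGraph.isNClique_iff]
      constructor
      · rw [Finset.coe_insert]
        rw [SimpleGraph.isClique_insert]
        refine ⟨hQ.isClique.subset (Finset.coe_subset.2 (Finset.erase_subset _ _)), ?_⟩
        intro b hb _
        exact (hv' b (Finset.mem_coe.1 hb)).symm
      · rw [Finset.card_insert_of_notMem hvn, Finset.card_erase_of_mem hq0, hQ.card_eq]
        omega
    exact Finset.mem_coe.2 (Finset.mem_filter.2 ⟨SimpleGraph.mem_cliqueFinset_iff.2 hcl,
      Finset.mem_insert_of_mem hx, Finset.mem_insert_of_mem hy⟩)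
  · intro v hv w hw hvw
    have hv' : ∀ q ∈ Q.erase q0, H.Adj q v := by simpa using hv
    have hvn := hnot v hv'
    have : v ∈ insert w (Q.erase q0) := by
      have h0 : insert v (Q.erase q0) = insert w (Q.erase q0) := hvw
      rw [← h0]
      exact Finset.mem_insert_self _ _
    rcases Finset.mem_insert.1 this with h | h
    · exact h
    · exact absurd h hvn

lemma count_good (l τ : ℕ) (hl : 2 ≤ l) {Q : Finset V} (hQ : H.IsNClique l Q)
    (hgood : ∀ q0 ∈ Q, #{v | ∀ q ∈ Q.erase q0, H.Adj q v} ≤ τ) :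
    ∑ q ∈ Q, H.degree q ≤ (l - 2) * Fintype.card V + 2 * l * τ := by
  have hcard : #Q = l := hQ.card_eq
  have h1 : ∑ q ∈ Q, H.degree q = ∑ v : V, #{q ∈ Q | H.Adj q v} := by
    simp_rw [degree_eq_sum]
    rw [Finset.sum_comm]
    refine Finset.sum_congr rfl fun v _ => ?_
    rw [Finset.card_filter]
  have h2 : ∀ v : V, #{q ∈ Q | H.Adj q v} ≤
      (l - 2) + 2 * ∑ q0 ∈ Q, (if ∀ q ∈ Q.erase q0, H.Adj q v then 1 else 0) := by
    intro v
    by_cases hr : #{q ∈ Q | H.Adj q v} ≤ l - 2
    · omega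
    push Not at hr
    have hle : #{q ∈ Q | H.Adj q v} ≤ l := hcard ▸ Finset.card_filter_le _ _
    have hsum := Finset.card_filter_add_card_filter_not (s := Q) (fun q => H.Adj q v)
    have hc : #{q ∈ Q | ¬ H.Adj q v} ≤ 1 := by omega
    have hex : ∃ q0 ∈ Q, ∀ q ∈ Q.erase q0, H.Adj q v := by
      by_cases hemp : ({q ∈ Q | ¬ H.Adj q v} : Finset V).Nonempty
      · obtain ⟨q0, hq0⟩ := hemp
        refine ⟨q0, (Finset.mem_filter.1 hq0).1, fun q hq => ?_⟩
        by_contra hnq
        have := Finset.card_le_one.1 hc q (Finset.mem_filter.2 ⟨Finset.mem_of_mem_erase hq, hnq⟩)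
          q0 hq0
        exact Finset.ne_of_mem_erase hq this
      · have hne : Q.Nonempty := by
          rw [← Finset.card_pos]; omega
        obtain ⟨q0, hq0⟩ := hne
        refine ⟨q0, hq0, fun q hq => ?_⟩
        by_contra hnq
        exact hemp ⟨q, Finset.mem_filter.2 ⟨Finset.mem_of_mem_erase hq, hnq⟩⟩
    obtain ⟨q0, hq0, hall⟩ := hex
    have h3 : 1 ≤ ∑ q0 ∈ Q, (if ∀ q ∈ Q.erase q0, H.Adj q v then 1 else 0) := by
      have := Finset.single_le_sum (f := fun q0 => if ∀ q ∈ Q.erase q0, H.Adj q v then 1 else 0)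
        (fun i _ => Nat.zero_le _) hq0
      rw [if_pos hall] at this
      exact this
    omega
  rw [h1]
  calc ∑ v : V, #{q ∈ Q | H.Adj q v} ≤
      ∑ v : V, ((l - 2) + 2 * ∑ q0 ∈ Q, (if ∀ q ∈ Q.erase q0, H.Adj q v then 1 else 0)) :=
        Finset.sum_le_sum fun v _ => h2 v
    _ = (l - 2) * Fintype.card V + 2 * ∑ q0 ∈ Q, #{v | ∀ q ∈ Q.erase q0, H.Adj q v} := by
        rw [Finset.sum_add_distrib, ← Finset.mul_sum, Finset.sum_comm, Finset.sum_const,
          Finset.card_univ, smul_eq_mul, mul_comm (Fintype.card V)]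
        congr 2
        refine Finset.sum_congr rfl fun q0 _ => ?_
        rw [Finset.card_filter]
    _ ≤ (l - 2) * Fintype.card V + 2 * ∑ q0 ∈ Q, τ := by
        gcongr with q0 hq0
        exact hgood q0 hq0
    _ = _ := by rw [Finset.sum_const, hcard, smul_eq_mul]; ring

lemma clique_sum (l τ : ℕ) (hl : 4 ≤ l) {Q : Finset V} (hQ : Q ∈ H.cliqueFinset l) :
    ∑ q ∈ Q, H.degree q * #{y ∈ Q | light H l τ q y} ≤
      (l - 1) * ((l - 2) * Fintype.card V + 2 * l * τ) := by
  have hQc : H.IsNClique l Q := SimpleGraph.mem_cliqueFinset_iff.1 hQ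
  have hcard : #Q = l := hQc.card_eq
  have hc : ∀ q ∈ Q, #{y ∈ Q | light H l τ q y} ≤ l - 1 := by
    intro q hq
    have : ({y ∈ Q | light H l τ q y} : Finset V) ⊆ Q.erase q := by
      intro y hy
      obtain ⟨hy1, hy2, _⟩ := Finset.mem_filter.1 hy
      exact Finset.mem_erase.2 ⟨hy2.ne', hy1⟩
    have := Finset.card_le_card this
    rw [Finset.card_erase_of_mem hq, hcard] at this
    exact this
  by_cases hgood : ∀ q0 ∈ Q, ∃ x ∈ Q.erase q0, ∃ y ∈ Q.erase q0, light H l τ x y
  · have h1 : ∀ q0 ∈ Q, #{v | ∀ q ∈ Q.erase q0, H.Adj q v} ≤ τ := by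
      intro q0 hq0
      obtain ⟨x, hx, y, hy, _, ht⟩ := hgood q0 hq0
      exact few_common H l τ (by omega) hQc hq0 hx hy ht
    calc ∑ q ∈ Q, H.degree q * #{y ∈ Q | light H l τ q y}
        ≤ ∑ q ∈ Q, H.degree q * (l - 1) := by
          gcongr with q hq
          exact hc q hq
      _ = (l - 1) * ∑ q ∈ Q, H.degree q := by rw [← Finset.sum_mul, mul_comm]
      _ ≤ _ := by
          gcongr
          exact count_good H l τ (by omega) hQc h1
  · push Not at hgood
    obtain ⟨q0, hq0, hbad⟩ := hgood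
    have hd : ∀ q, H.degree q ≤ Fintype.card V := fun q => (H.degree_lt_card_verts q).le
    rw [← Finset.add_sum_erase Q _ hq0]
    have h2 : ∀ q ∈ Q.erase q0, H.degree q * #{y ∈ Q | light H l τ q y} ≤ Fintype.card V := by
      intro q hq
      have : ({y ∈ Q | light H l τ q y} : Finset V) ⊆ {q0} := by
        intro y hy
        obtain ⟨hy1, hy2⟩ := Finset.mem_filter.1 hy
        by_contra hne
        rw [Finset.mem_singleton] at hne
        exact hbad q hq y (Finset.mem_erase.2 ⟨hne, hy1⟩) hy2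
      have := Finset.card_le_card this
      rw [Finset.card_singleton] at this
      calc H.degree q * #{y ∈ Q | light H l τ q y} ≤ Fintype.card V * 1 :=
            Nat.mul_le_mul (hd q) this
        _ = _ := mul_one _
    have h3 : ∑ q ∈ Q.erase q0, H.degree q * #{y ∈ Q | light H l τ q y} ≤
        (l - 1) * Fintype.card V := by
      refine (Finset.sum_le_card_nsmul _ _ _ h2).trans ?_
      rw [Finset.card_erase_of_mem hq0, hcard, smul_eq_mul]
    have h4 : H.degree q0 * #{y ∈ Q | light H l τ q0 y} ≤ Fintype.card V * (l - 1) :=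
      Nat.mul_le_mul (hd q0) (hc q0 hq0)
    have h5 : 2 * Fintype.card V ≤ (l - 2) * Fintype.card V :=
      Nat.mul_le_mul_right _ (by omega)
    calc _ ≤ Fintype.card V * (l - 1) + (l - 1) * Fintype.card V := add_le_add h4 h3
      _ = (l - 1) * (2 * Fintype.card V) := by ring
      _ ≤ (l - 1) * ((l - 2) * Fintype.card V + 2 * l * τ) :=
        Nat.mul_le_mul_left _ (h5.trans (Nat.le_add_right _ _))

/-- double counting of weighted pairs in cliques -/
lemma double_count (l : ℕ) (P : V → V → Prop) [DecidableRel P] (f : V → ℕ) :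
    ∑ Q ∈ H.cliqueFinset l, ∑ q ∈ Q, f q * #{y ∈ Q | P q y} =
      ∑ x : V, ∑ y : V, if P x y then f x * tt H l x y else 0 := by
  have h1 : ∀ Q : Finset V, ∑ q ∈ Q, f q * #{y ∈ Q | P q y} =
      ∑ x : V, ∑ y : V, if P x y ∧ x ∈ Q ∧ y ∈ Q then f x else 0 := by
    intro Q
    rw [← Finset.sum_subset (Finset.subset_univ Q)]
    · refine Finset.sum_congr rfl fun x hx => ?_
      rw [← Finset.sum_filter, Finset.sum_const, smul_eq_mul, mul_comm]
      congr 2
      ext y
      simp [hx, and_comm]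
    · intro x _ hx
      simp [hx]
  simp_rw [h1]
  rw [Finset.sum_comm]
  refine Finset.sum_congr rfl fun x _ => ?_
  rw [Finset.sum_comm]
  refine Finset.sum_congr rfl fun y _ => ?_
  by_cases hP : P x y
  · simp only [hP, true_and, if_true]
    rw [← Finset.sum_filter, Finset.sum_const, smul_eq_mul, mul_comm, tt]
  · simp [hP]

/-- the main inequality -/
theorem main_ineq (l τ : ℕ) (hl : 4 ≤ l)
    (hcov : ∀ x y, H.Adj x y → ∃ Q, H.IsNClique l Q ∧ x ∈ Q ∧ y ∈ Q) :
    ∃ h : ℕ, h * (τ + 1) ≤ #(H.cliqueFinset l) * (l * (l - 1)) ∧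
      (∑ v, H.degree v) ^ 2 ≤ Fintype.card V *
        (#(H.cliqueFinset l) * ((l - 1) * ((l - 2) * Fintype.card V + 2 * l * τ)) +
          Fintype.card V * h) := by
  classical
  set n := Fintype.card V with hn
  set k := #(H.cliqueFinset l) with hk
  refine ⟨∑ x : V, ∑ y : V, if H.Adj x y ∧ ¬ tt H l x y ≤ τ then 1 else 0, ?_, ?_⟩
  · -- heavy pairs
    have h1 := double_count H l (fun x y => H.Adj x y) (fun _ => 1)
    have h2 : ∑ Q ∈ H.cliqueFinset l, ∑ q ∈ Q, 1 * #{y ∈ Q | H.Adj q y} ≤ k * (l * (l - 1)) := by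
      have : ∀ Q ∈ H.cliqueFinset l, ∑ q ∈ Q, 1 * #{y ∈ Q | H.Adj q y} ≤ l * (l - 1) := by
        intro Q hQ
        have hQc : H.IsNClique l Q := SimpleGraph.mem_cliqueFinset_iff.1 hQ
        have hcard : #Q = l := hQc.card_eq
        have : ∀ q ∈ Q, 1 * #{y ∈ Q | H.Adj q y} ≤ l - 1 := by
          intro q hq
          have : ({y ∈ Q | H.Adj q y} : Finset V) ⊆ Q.erase q := by
            intro y hy
            obtain ⟨hy1, hy2⟩ := Finset.mem_filter.1 hy
            exact Finset.mem_erase.2 ⟨hy2.ne', hy1⟩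
          have := Finset.card_le_card this
          rw [Finset.card_erase_of_mem hq, hcard] at this
          rw [one_mul]
          exact this
        refine (Finset.sum_le_card_nsmul _ _ _ this).trans ?_
        rw [hcard, smul_eq_mul]
      refine (Finset.sum_le_card_nsmul _ _ _ this).trans ?_
      rw [smul_eq_mul]
    rw [h1] at h2
    refine le_trans ?_ h2
    rw [Finset.sum_mul]
    refine Finset.sum_le_sum fun x _ => ?_
    rw [Finset.sum_mul]
    refine Finset.sum_le_sum fun y _ => ?_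
    by_cases hA : H.Adj x y
    · by_cases ht : tt H l x y ≤ τ
      · simp [hA, ht]
      · simp only [hA, ht, true_and, not_false_eq_true, if_true]
        omega
    · simp [hA]
  · have hCS : (∑ v, H.degree v) ^ 2 ≤ n * ∑ v, H.degree v ^ 2 := by
      have := sq_sum_le_card_mul_sum_sq (s := (Finset.univ : Finset V)) (f := fun v => H.degree v)
      rwa [Finset.card_univ] at this
    refine hCS.trans (Nat.mul_le_mul_left _ ?_)
    have h3 : ∑ v, H.degree v ^ 2 = ∑ x : V, ∑ y : V, if H.Adj x y then H.degree x else 0 := by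
      refine Finset.sum_congr rfl fun x _ => ?_
      rw [← Finset.sum_filter, Finset.sum_const, smul_eq_mul, sq, Finset.card_filter,
        ← degree_eq_sum]
    rw [h3]
    have h4 : ∀ x y : V, (if H.Adj x y then H.degree x else 0) ≤
        (if light H l τ x y then H.degree x * tt H l x y else 0) +
          n * (if H.Adj x y ∧ ¬ tt H l x y ≤ τ then 1 else 0) := by
      intro x y
      by_cases hA : H.Adj x y
      · by_cases ht : tt H l x y ≤ τ
        · have hlt : light H l τ x y := ⟨hA, ht⟩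
          have h1 : 1 ≤ tt H l x y := by
            obtain ⟨Q, hQ, hx, hy⟩ := hcov x y hA
            rw [tt, Nat.one_le_iff_ne_zero, ← Nat.pos_iff_ne_zero, Finset.card_pos]
            exact ⟨Q, Finset.mem_filter.2 ⟨SimpleGraph.mem_cliqueFinset_iff.2 hQ, hx, hy⟩⟩
          simp only [hA, hlt, if_true]
          calc H.degree x = H.degree x * 1 := (mul_one _).symm
            _ ≤ H.degree x * tt H l x y := Nat.mul_le_mul_left _ h1
            _ ≤ _ := Nat.le_add_right _ _
        · have : H.degree x ≤ n := (H.degree_lt_card_verts x).le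
          simp only [hA, ht, true_and, not_false_eq_true, if_true]
          omega
      · simp [hA]
    calc ∑ x : V, ∑ y : V, (if H.Adj x y then H.degree x else 0)
        ≤ ∑ x : V, ∑ y : V, ((if light H l τ x y then H.degree x * tt H l x y else 0) +
          n * (if H.Adj x y ∧ ¬ tt H l x y ≤ τ then 1 else 0)) :=
          Finset.sum_le_sum fun x _ => Finset.sum_le_sum fun y _ => h4 x y
      _ = ∑ Q ∈ H.cliqueFinset l, ∑ q ∈ Q, H.degree q * #{y ∈ Q | light H l τ q y} +
          n * ∑ x : V, ∑ y : V, (if H.Adj x y ∧ ¬ tt H l x y ≤ τ then 1 else 0) := by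
          rw [double_count]
          simp_rw [Finset.sum_add_distrib, Finset.mul_sum]
      _ ≤ _ := by
          gcongr
          refine (Finset.sum_le_card_nsmul _ _ _ fun Q hQ => clique_sum H l τ hl hQ).trans ?_
          rw [smul_eq_mul]

end Pool.Agent.R861.ID
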