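import Mathlib

/-!
# Turán density with few cliques

A graph on `n` vertices with at most `n^2` cliques of size `l ≥ 4` has at most
`(1 - 1/(l-1) + o(1)) n^2/2` edges.  Proof: averaging over vertex deletions down to `M` vertices.
-/

namespace Pool.Agent.R861.ID

open Finset

set_option linter.unusedSectionVars false

variable {V : Type*} [Fintype V] [DecidableEq V] (H : SimpleGraph V) [DecidableRel H.Adj]

/-- ordered adjacent pairs inside `W` -/
def aw (W : Finset V) : ℕ := #{p ∈ W ×ˢ W | H.Adj p.1 p.2}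

/-- `l`-cliques inside `W` -/
def kw (l : ℕ) (W : Finset V) : ℕ := #{Q ∈ H.cliqueFinset l | Q ⊆ W}

lemma aw_eq_sum (W : Finset V) : aw H W = ∑ x ∈ W, #{y ∈ W | H.Adj x y} := by
  rw [aw, Finset.card_filter, Finset.sum_product]
  refine Finset.sum_congr rfl fun x _ => ?_
  rw [Finset.card_filter]

lemma turan_base (l : ℕ) (hl : 2 ≤ l) (W : Finset V) (h : kw H l W = 0) :
    (l - 1) * aw H W ≤ (l - 2) * #W ^ 2 := by
  classical
  set G' : SimpleGraph (↑(W : Set V)) := H.induce (W : Set V) with hG'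
  have hcf : G'.CliqueFree ((l - 1) + 1) := by
    have e : (l - 1) + 1 = l := by omega
    rw [e]
    intro t ht
    rw [kw, Finset.card_eq_zero, Finset.filter_eq_empty_iff] at h
    have h1 : H.IsNClique l (t.map (Function.Embedding.subtype _)) := by
      have := ht.map (f := Function.Embedding.subtype (fun x => x ∈ (W : Set V)))
      refine this.mono ?_
      rw [hG']
      rw [SimpleGraph.map_le_iff_le_comap]
    refine h (SimpleGraph.mem_cliqueFinset_iff.2 h1) ?_
    intro x hx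
    obtain ⟨y, _, rfl⟩ := Finset.mem_map.1 hx
    exact Finset.mem_coe.1 y.2
  have h1 := hcf.card_edgeFinset_le
  have h2 := SimpleGraph.mul_card_edgeFinset_turanGraph_le (n := #W) (r := l - 1)
  have hcardW : Fintype.card (↑(W : Set V)) = #W := by simp
  simp only [hcardW] at h1
  rw [← SimpleGraph.card_edgeFinset_turanGraph] at h1
  have h3 : aw H W = 2 * #G'.edgeFinset := by
    rw [← SimpleGraph.sum_degrees_eq_twice_card_edges, aw_eq_sum]
    rw [← Finset.sum_coe_sort W]
    refine Finset.sum_congr rfl fun x _ => ?_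
    rw [← SimpleGraph.card_neighborFinset_eq_degree]
    symm
    refine Finset.card_bij (fun y _ => y.1) ?_ ?_ ?_
    · intro y hy
      rw [SimpleGraph.mem_neighborFinset] at hy
      exact Finset.mem_filter.2 ⟨Finset.mem_coe.1 y.2, hy⟩
    · intro a _ b _ hab
      exact Subtype.ext hab
    · intro b hb
      obtain ⟨hb1, hb2⟩ := Finset.mem_filter.1 hb
      refine ⟨⟨b, Finset.mem_coe.2 hb1⟩, ?_, rfl⟩
      rw [SimpleGraph.mem_neighborFinset]
      exact hb2
  have e2 : l - 1 - 1 = l - 2 := by omega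
  rw [e2] at h2
  calc (l - 1) * aw H W = 2 * (l - 1) * #G'.edgeFinset := by rw [h3]; ring
    _ ≤ 2 * (l - 1) * #(SimpleGraph.turanGraph (#W) (l - 1)).edgeFinset :=
        Nat.mul_le_mul_left _ h1
    _ ≤ _ := h2

lemma aw_le (W : Finset V) : aw H W ≤ #W * (#W - 1) := by
  have : ({p ∈ W ×ˢ W | H.Adj p.1 p.2} : Finset (V × V)) ⊆ W.offDiag := by
    intro p hp
    obtain ⟨hp1, hp2⟩ := Finset.mem_filter.1 hp
    obtain ⟨ha, hb⟩ := Finset.mem_product.1 hp1
    exact Finset.mem_offDiag.2 ⟨ha, hb, hp2.ne⟩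
  have := Finset.card_le_card this
  rw [Finset.offDiag_card] at this
  rw [aw]
  refine this.trans ?_
  rw [Nat.mul_sub, mul_one]

lemma sum_aw (W : Finset V) : ∑ v ∈ W, aw H (W.erase v) = (#W - 2) * aw H W := by
  have h1 : ∀ v ∈ W, aw H (W.erase v) =
      ∑ p ∈ {p ∈ W ×ˢ W | H.Adj p.1 p.2}, if p.1 ≠ v ∧ p.2 ≠ v then 1 else 0 := by
    intro v _
    rw [aw, ← Finset.card_filter]
    congr 1
    ext p
    simp only [Finset.mem_filter, Finset.mem_product, Finset.mem_erase]
    tauto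
  rw [Finset.sum_congr rfl h1, Finset.sum_comm, aw, mul_comm, ← smul_eq_mul, ← Finset.sum_const]
  refine Finset.sum_congr rfl fun p hp => ?_
  obtain ⟨hp1, hp2⟩ := Finset.mem_filter.1 hp
  obtain ⟨ha, hb⟩ := Finset.mem_product.1 hp1
  rw [← Finset.card_filter]
  have : ({v ∈ W | p.1 ≠ v ∧ p.2 ≠ v} : Finset V) = (W.erase p.1).erase p.2 := by
    ext v
    simp only [Finset.mem_filter, Finset.mem_erase]
    constructor
    · rintro ⟨h1, h2, h3⟩; exact ⟨h3.symm, h2.symm, h1⟩
    · rintro ⟨h3, h2, h1⟩; exact ⟨h1, h2.symm, h3.symm⟩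
  rw [this, Finset.card_erase_of_mem (Finset.mem_erase.2 ⟨hp2.ne', hb⟩),
    Finset.card_erase_of_mem ha]
  omega

lemma sum_kw (l : ℕ) (W : Finset V) : ∑ v ∈ W, kw H l (W.erase v) = (#W - l) * kw H l W := by
  have h1 : ∀ v ∈ W, kw H l (W.erase v) =
      ∑ Q ∈ {Q ∈ H.cliqueFinset l | Q ⊆ W}, if v ∉ Q then 1 else 0 := by
    intro v _
    rw [kw, ← Finset.card_filter]
    congr 1
    ext Q
    simp only [Finset.mem_filter, Finset.subset_erase]
    tauto
  rw [Finset.sum_congr rfl h1, Finset.sum_comm, kw, mul_comm, ← smul_eq_mul, ← Finset.sum_const]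
  refine Finset.sum_congr rfl fun Q hQ => ?_
  obtain ⟨hQ1, hQ2⟩ := Finset.mem_filter.1 hQ
  rw [← Finset.card_filter]
  have : ({v ∈ W | v ∉ Q} : Finset V) = W \ Q := by
    ext v; simp
  rw [this, Finset.card_sdiff_of_subset hQ2, (SimpleGraph.mem_cliqueFinset_iff.1 hQ1).card_eq]

/-- the averaging inequality -/
lemma averaged (l M : ℕ) (hl : 2 ≤ l) (hM : 2 ≤ M) (hlM : l ≤ M) (w : ℕ) (hw : M ≤ w) :
    ∀ W : Finset V, #W = w →
      (aw H W : ℝ) / (w * (w - 1)) ≤
        ((l : ℝ) - 2) / (l - 1) * (M / (M - 1)) +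
          (M.choose l : ℝ) * ((kw H l W : ℝ) / (w.choose l : ℝ)) := by
  have hM1 : (0 : ℝ) < (M : ℝ) - 1 := by
    have : (2 : ℝ) ≤ M := by exact_mod_cast hM
    linarith
  have hl1 : (0 : ℝ) < (l : ℝ) - 1 := by
    have : (2 : ℝ) ≤ l := by exact_mod_cast hl
    linarith
  have hl2 : (0 : ℝ) ≤ (l : ℝ) - 2 := by
    have : (2 : ℝ) ≤ l := by exact_mod_cast hl
    linarith
  have hMpos : (0 : ℝ) < (M : ℝ) := by positivity
  induction w, hw using Nat.le_induction with
  | base =>
    intro W hW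
    have hch : (0 : ℝ) < (M.choose l : ℝ) := by exact_mod_cast Nat.choose_pos hlM
    rw [mul_div_cancel₀ _ hch.ne']
    by_cases hk : kw H l W = 0
    · have := turan_base H l hl W hk
      rw [hW] at this
      have h2 : ((l : ℝ) - 1) * (aw H W : ℝ) ≤ ((l : ℝ) - 2) * (M : ℝ) ^ 2 := by
        have h3 : (((l - 1 : ℕ) : ℝ)) * (aw H W : ℝ) ≤ ((l - 2 : ℕ) : ℝ) * (M : ℝ) ^ 2 := by
          exact_mod_cast this
        rw [Nat.cast_sub (by omega), Nat.cast_sub (by omega)] at h3
        simpa using h3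
      rw [hk, Nat.cast_zero, add_zero, div_mul_div_comm, div_le_div_iff₀ (by positivity) (by positivity)]
      have := mul_le_mul_of_nonneg_right h2 hM1.le
      nlinarith
    · have h1 : aw H W ≤ M * (M - 1) := hW ▸ aw_le H W
      have h2 : (aw H W : ℝ) ≤ M * ((M : ℝ) - 1) := by
        have : (aw H W : ℝ) ≤ ((M * (M - 1) : ℕ) : ℝ) := by exact_mod_cast h1
        rw [Nat.cast_mul, Nat.cast_sub (by omega)] at this
        simpa using this
      have h3 : (1 : ℝ) ≤ (kw H l W : ℝ) := by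
        exact_mod_cast Nat.one_le_iff_ne_zero.2 hk
      have h4 : (aw H W : ℝ) / (M * (M - 1)) ≤ 1 := by
        rw [div_le_one (by positivity)]; exact h2
      have h5 : (0 : ℝ) ≤ ((l : ℝ) - 2) / (l - 1) * (M / (M - 1)) := by positivity
      linarith
  | succ w hw ih =>
    intro W hW
    have hw2 : (2 : ℝ) ≤ w := by exact_mod_cast (hM.trans hw)
    have hwpos : (0 : ℝ) < w := by linarith
    have hw1 : (0 : ℝ) < (w : ℝ) - 1 := by linarith
    have hch : (0 : ℝ) < (w.choose l : ℝ) := by exact_mod_cast Nat.choose_pos (hlM.trans hw)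
    have hch' : (0 : ℝ) < ((w+1).choose l : ℝ) := by
      exact_mod_cast Nat.choose_pos (hlM.trans (hw.trans (Nat.le_succ w)))
    have h1 := sum_aw H W
    have h2 := sum_kw H l W
    rw [hW] at h1 h2
    have h1' : ∑ v ∈ W, (aw H (W.erase v) : ℝ) = ((w : ℝ) - 1) * aw H W := by
      have : ((∑ v ∈ W, aw H (W.erase v) : ℕ) : ℝ) = (((w + 1 - 2) * aw H W : ℕ) : ℝ) := by
        exact_mod_cast h1
      rw [Nat.cast_sum, Nat.cast_mul] at this
      rw [this]
      congr 1
      rw [show w + 1 - 2 = w - 1 by omega, Nat.cast_sub (by omega)]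
      simp
    have h2' : ∑ v ∈ W, (kw H l (W.erase v) : ℝ) = ((w : ℝ) + 1 - l) * kw H l W := by
      have : ((∑ v ∈ W, kw H l (W.erase v) : ℕ) : ℝ) = (((w + 1 - l) * kw H l W : ℕ) : ℝ) := by
        exact_mod_cast h2
      rw [Nat.cast_sum, Nat.cast_mul] at this
      rw [this]
      congr 1
      rw [Nat.cast_sub (by omega)]
      push_cast
      ring
    set T : ℝ := ((l : ℝ) - 2) / (l - 1) * (M / (M - 1)) with hT
    set μ : ℝ := (M.choose l : ℝ) with hμ
    clear_value T μ
    have h3 : ∑ v ∈ W, (aw H (W.erase v) : ℝ) / (w * (w - 1)) ≤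
        ∑ v ∈ W, (T + μ * ((kw H l (W.erase v) : ℝ) / (w.choose l : ℝ))) := by
      refine Finset.sum_le_sum fun v hv => ih _ ?_
      rw [Finset.card_erase_of_mem hv, hW]; rfl
    rw [← Finset.sum_div, h1', Finset.sum_add_distrib, ← Finset.mul_sum, ← Finset.sum_div, h2',
      Finset.sum_const, hW, nsmul_eq_mul] at h3
    have hpas : ((w : ℝ) + 1) * (w.choose l : ℝ) = ((w+1).choose l : ℝ) * ((w : ℝ) + 1 - l) := by
      have := Nat.choose_mul_succ_eq w l
      have h5 : ((w.choose l * (w + 1) : ℕ) : ℝ) = (((w + 1).choose l * (w + 1 - l) : ℕ) : ℝ) := by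
        exact_mod_cast this
      rw [Nat.cast_mul, Nat.cast_mul, Nat.cast_sub (by omega)] at h5
      push_cast at h5
      linarith
    have e1 : ((w : ℝ) - 1) * aw H W / (w * (w - 1)) = (aw H W : ℝ) / w := by
      field_simp
    rw [e1] at h3
    have e2 : ((w : ℝ) + 1 - l) * kw H l W / (w.choose l : ℝ) =
        ((w : ℝ) + 1) * ((kw H l W : ℝ) / ((w+1).choose l : ℝ)) := by
      rw [div_eq_iff hch.ne']
      field_simp
      linear_combination (-(kw H l W : ℝ)) * hpas
    rw [e2] at h3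
    have e3 : (aw H W : ℝ) / (((w + 1 : ℕ) : ℝ) * (((w + 1 : ℕ) : ℝ) - 1)) =
        ((aw H W : ℝ) / w) / (w + 1) := by
      push_cast
      rw [add_sub_cancel_right, div_div, mul_comm]
    rw [e3, div_le_iff₀ (by positivity)]
    push_cast at h3 ⊢
    linarith

end Pool.Agent.R861.ID
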