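import Pool.Agent.R861.ID.Count
import Pool.Agent.R861.ID.Turan

/-!
# Independent domination between levels `l` and `2`: from dominating sets to graphs
-/

namespace Pool.Agent.R861.ID

open Finset

/-- The vertices of `G_{l,2}(n)`: the `l`-element and the `2`-element subsets of `[n]`. -/
abbrev Vtx (l n : ℕ) : Type := {A : Finset (Fin n) // A.card = l ∨ A.card = 2}

/-- The graph `G_{l,2}(n)`: an `l`-set `A` and a `2`-set `B` are adjacent iff `B ⊆ A`
(`fromRel` symmetrises the relation; there are no other edges). -/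
def levelGraph (l n : ℕ) : SimpleGraph (Vtx l n) :=
  SimpleGraph.fromRel fun A B => A.1.card = l ∧ B.1.card = 2 ∧ B.1 ⊆ A.1

/-- Every vertex outside `D` has a neighbour in `D`. -/
def IsDominating {V : Type*} (G : SimpleGraph V) (D : Finset V) : Prop :=
  ∀ v, v ∉ D → ∃ u ∈ D, G.Adj v u

/-- No two vertices of `D` are adjacent. -/
def IsIndependent {V : Type*} (G : SimpleGraph V) (D : Finset V) : Prop :=
  ∀ u ∈ D, ∀ v ∈ D, ¬ G.Adj u v

/-- The independent domination number `i(G)`. -/
noncomputable def indepDomNumber {V : Type*} (G : SimpleGraph V) : ℕ :=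
  sInf {m | ∃ D : Finset V, IsIndependent G D ∧ IsDominating G D ∧ D.card = m}

/-- the graph of pairs missing from `D` -/
def missing {l n : ℕ} (D : Finset (Vtx l n)) : SimpleGraph (Fin n) where
  Adj x y := x ≠ y ∧ ∀ v ∈ D, v.1 ≠ {x, y}
  symm := ⟨fun x y h => ⟨h.1.symm, fun v hv => by rw [Finset.pair_comm]; exact h.2 v hv⟩⟩
  loopless := ⟨fun _ h => h.1 rfl⟩

theorem dom_to_graph {l n : ℕ} (hl : 3 ≤ l) (D : Finset (Vtx l n))
    (hI : IsIndependent (levelGraph l n) D) (hD : IsDominating (levelGraph l n) D)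
    [DecidableRel (missing D).Adj] :
    (∀ x y, (missing D).Adj x y → ∃ Q, (missing D).IsNClique l Q ∧ x ∈ Q ∧ y ∈ Q) ∧
      n * (n - 1) + 2 * #((missing D).cliqueFinset l) ≤
        (∑ v, (missing D).degree v) + 2 * #D := by
  have hind : ∀ u ∈ D, ∀ v ∈ D, u.1.card = l → v.1.card = 2 → ¬ v.1 ⊆ u.1 := by
    intro u hu v hv h1 h2 h3
    refine hI u hu v hv ?_
    rw [levelGraph, SimpleGraph.fromRel_adj]
    refine ⟨?_, Or.inl ⟨h1, h2, h3⟩⟩
    rintro rfl
    omega
  have hcov : ∀ x y, (missing D).Adj x y → ∃ Q, (missing D).IsNClique l Q ∧ x ∈ Q ∧ y ∈ Q := by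
    intro x y hxy
    have hne : x ≠ y := hxy.1
    have hc2 : ({x, y} : Finset (Fin n)).card = 2 := Finset.card_pair hne
    have hnot : (⟨{x, y}, Or.inr hc2⟩ : Vtx l n) ∉ D := fun hmem => hxy.2 _ hmem rfl
    obtain ⟨u, hu, hadj⟩ := hD _ hnot
    rw [levelGraph, SimpleGraph.fromRel_adj] at hadj
    have h3 : u.1.card = l ∧ ({x, y} : Finset (Fin n)) ⊆ u.1 := by
      rcases hadj.2 with ⟨h1, _, _⟩ | ⟨h1, _, h3⟩
      · exfalso
        simp only at h1
        omega
      · exact ⟨h1, h3⟩
    refine ⟨u.1, ?_, h3.2 (by simp), h3.2 (by simp)⟩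
    rw [SimpleGraph.isNClique_iff]
    refine ⟨?_, h3.1⟩
    intro a ha b hb hab
    refine ⟨hab, fun v hv hvab => ?_⟩
    refine hind u hu v hv h3.1 (by rw [hvab]; exact Finset.card_pair hab) ?_
    rw [hvab]
    intro z hz
    rcases Finset.mem_insert.1 hz with rfl | hz
    · exact ha
    · rw [Finset.mem_singleton.1 hz]; exact hb
  refine ⟨hcov, ?_⟩
  -- cliques are in `D`
  have hk : #((missing D).cliqueFinset l) ≤ #{v ∈ D | v.1.card = l} := by
    have : (missing D).cliqueFinset l ⊆ ({v ∈ D | v.1.card = l} : Finset _).image (fun v => v.1) := by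
      intro Q hQ
      have hQc := SimpleGraph.mem_cliqueFinset_iff.1 hQ
      have hcard : #Q = l := hQc.card_eq
      rw [Finset.mem_image]
      refine ⟨⟨Q, Or.inl hcard⟩, Finset.mem_filter.2 ⟨?_, hcard⟩, rfl⟩
      by_contra hnot
      obtain ⟨u, hu, hadj⟩ := hD _ hnot
      rw [levelGraph, SimpleGraph.fromRel_adj] at hadj
      have h3 : u.1.card = 2 ∧ u.1 ⊆ Q := by
        rcases hadj.2 with ⟨_, h2, h3⟩ | ⟨_, h2, _⟩
        · exact ⟨h2, h3⟩
        · exfalso
          simp only at h2
          omega
      obtain ⟨x, y, hxy, hu2⟩ := Finset.card_eq_two.1 h3.1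
      have hx : x ∈ Q := h3.2 (by rw [hu2]; simp)
      have hy : y ∈ Q := h3.2 (by rw [hu2]; simp)
      exact (hQc.isClique hx hy hxy).2 u hu hu2
    exact (Finset.card_le_card this).trans Finset.card_image_le
  -- pairs
  have hp : n * (n - 1) ≤ (∑ v, (missing D).degree v) + 2 * #{v ∈ D | v.1.card = 2} := by
    set P : Finset (Fin n × Fin n) := {p ∈ (Finset.univ : Finset (Fin n)).offDiag | ¬ (missing D).Adj p.1 p.2} with hP
    set E : Finset (Fin n × Fin n) := {p ∈ (Finset.univ : Finset (Fin n)).offDiag | (missing D).Adj p.1 p.2} with hE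
    have h1 : #E + #P = n * (n - 1) := by
      rw [hE, hP, Finset.card_filter_add_card_filter_not, Finset.offDiag_card]
      simp [Nat.mul_sub]
    have h2 : #E = ∑ v, (missing D).degree v := by
      have : #E = ∑ x : Fin n, ∑ y : Fin n, if (missing D).Adj x y then 1 else 0 := by
        rw [← Fintype.sum_prod_type', ← Finset.card_filter]
        congr 1
        ext p
        simp only [hE, Finset.mem_filter, Finset.mem_offDiag, Finset.mem_univ, true_and]
        constructor
        · rintro ⟨_, h⟩; exact h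
        · intro h; exact ⟨h.ne, h⟩
      rw [this]
      refine Finset.sum_congr rfl fun x _ => ?_
      rw [degree_eq_sum]
    have h3 : #P ≤ 2 * #{v ∈ D | v.1.card = 2} := by
      have h4 : P.image (fun p => ({p.1, p.2} : Finset (Fin n))) ⊆
          ({v ∈ D | v.1.card = 2} : Finset _).image (fun v => v.1) := by
        intro B hB
        obtain ⟨p, hp, rfl⟩ := Finset.mem_image.1 hB
        obtain ⟨hp1, hp2⟩ := Finset.mem_filter.1 hp
        have hne : p.1 ≠ p.2 := (Finset.mem_offDiag.1 hp1).2.2
        have : ∃ v ∈ D, v.1 = {p.1, p.2} := by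
          by_contra hcon
          push Not at hcon
          exact hp2 ⟨hne, hcon⟩
        obtain ⟨v, hv, hv2⟩ := this
        rw [Finset.mem_image]
        exact ⟨v, Finset.mem_filter.2 ⟨hv, by rw [hv2]; exact Finset.card_pair hne⟩, hv2⟩
      have h5 : #P ≤ 2 * #(P.image (fun p => ({p.1, p.2} : Finset (Fin n)))) := by
        refine Finset.card_le_mul_card_image P 2 ?_
        intro B hB
        obtain ⟨p, hp, rfl⟩ := Finset.mem_image.1 hB
        have : ({a ∈ P | ({a.1, a.2} : Finset (Fin n)) = {p.1, p.2}} : Finset _) ⊆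
            {p, (p.2, p.1)} := by
          intro a ha
          obtain ⟨ha1, ha2⟩ := Finset.mem_filter.1 ha
          have hne : a.1 ≠ a.2 := (Finset.mem_offDiag.1 (Finset.mem_filter.1 ha1).1).2.2
          have hm1 : a.1 ∈ ({p.1, p.2} : Finset (Fin n)) := by rw [← ha2]; simp
          have hm2 : a.2 ∈ ({p.1, p.2} : Finset (Fin n)) := by rw [← ha2]; simp
          simp only [Finset.mem_insert, Finset.mem_singleton] at hm1 hm2 ⊢
          rcases hm1 with h | h <;> rcases hm2 with h' | h'
          · exact absurd (h.trans h'.symm) hne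
          · left; exact Prod.ext h h'
          · right; exact Prod.ext h h'
          · exact absurd (h.trans h'.symm) hne
        exact (Finset.card_le_card this).trans (Finset.card_le_two)
      refine h5.trans (Nat.mul_le_mul_left _ ((Finset.card_le_card h4).trans Finset.card_image_le))
    omega
  have hsum : #{v ∈ D | v.1.card = l} + #{v ∈ D | v.1.card = 2} ≤ #D := by
    rw [← Finset.card_union_of_disjoint]
    · refine Finset.card_le_card ?_
      intro v hv
      rcases Finset.mem_union.1 hv with h | h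
      · exact (Finset.mem_filter.1 h).1
      · exact (Finset.mem_filter.1 h).1
    · rw [Finset.disjoint_left]
      intro v hv hv'
      have h1 := (Finset.mem_filter.1 hv).2
      have h2 := (Finset.mem_filter.1 hv').2
      omega
  omega

/-- All `2`-sets form an independent dominating set. -/
theorem pairs_ok {l n : ℕ} (hl : 3 ≤ l) :
    ∃ D : Finset (Vtx l n), IsIndependent (levelGraph l n) D ∧ IsDominating (levelGraph l n) D ∧
      #D = n.choose 2 := by
  refine ⟨Finset.univ.filter (fun v => v.1.card = 2), ?_, ?_, ?_⟩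
  · intro u hu v hv hadj
    rw [levelGraph, SimpleGraph.fromRel_adj] at hadj
    have h1 := (Finset.mem_filter.1 hu).2
    have h2 := (Finset.mem_filter.1 hv).2
    rcases hadj.2 with ⟨h, _, _⟩ | ⟨h, _, _⟩ <;> omega
  · intro v hv
    have hv2 : v.1.card = l := by
      rcases v.2 with h | h
      · exact h
      · exfalso
        apply hv
        simp [h]
    obtain ⟨B, hB1, hB2⟩ := Finset.exists_subset_card_eq (show 2 ≤ v.1.card by omega)
    refine ⟨⟨B, Or.inr hB2⟩, Finset.mem_filter.2 ⟨Finset.mem_univ _, hB2⟩, ?_⟩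
    rw [levelGraph, SimpleGraph.fromRel_adj]
    refine ⟨?_, Or.inl ⟨hv2, hB2, hB1⟩⟩
    intro h
    have : v.1.card = B.card := by rw [h]
    omega
  · have : (Finset.univ.filter (fun v : Vtx l n => v.1.card = 2)).image (fun v => v.1) =
        Finset.powersetCard 2 (Finset.univ : Finset (Fin n)) := by
      ext B
      simp only [Finset.mem_image, Finset.mem_filter, Finset.mem_univ, true_and,
        Finset.mem_powersetCard, Finset.subset_univ]
      constructor
      · rintro ⟨v, hv, rfl⟩; exact hv
      · intro h; exact ⟨⟨B, Or.inr h⟩, h, rfl⟩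
    have h2 := Finset.card_image_of_injective (Finset.univ.filter (fun v : Vtx l n => v.1.card = 2))
      (f := fun v => v.1) Subtype.val_injective
    rw [this, Finset.card_powersetCard, Finset.card_univ, Fintype.card_fin] at h2
    exact h2.symm

end Pool.Agent.R861.ID
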